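import Mathlib
import Pool.Agent.Helper8.Classify.Defs

/-!
# CL-L: the level function
-/

namespace Pool.Agent.Helper8.Classify

open Finset Filter Topology Pool.Agent.Helper8.Dilation Pool.Agent.Helper8.Order

/-- Steps of a monotone sequence. -/
lemma card_steps (g : ℕ → ℕ) (hg : ∀ n, 1 ≤ n → g n ≤ g (n + 1)) (N : ℕ) (hN : 1 ≤ N) :
    ((Ico 1 N).filter fun n => g (n + 1) ≠ g n).card ≤ g N := by
  have key : ∀ N, ((Ico 1 (N + 1)).filter fun n => g (n + 1) ≠ g n).card ≤ g (N + 1) := by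
    intro N
    induction N with
    | zero => simp
    | succ N ih =>
      rw [← Finset.insert_Ico_right_eq_Ico_add_one (by omega), Finset.filter_insert]
      split_ifs with h
      · refine (Finset.card_insert_le _ _).trans ?_
        have := hg (N + 1) (by omega)
        omega
      · exact ih.trans (hg (N + 1) (by omega))
  obtain ⟨M, rfl⟩ : ∃ M, N = M + 1 := ⟨N - 1, by omega⟩
  exact key M

/-- far from integers, the levels change as prescribed -/
lemma floor_nat_shift {D : ℝ} (hD : 0 ≤ D) {n p : ℕ} (hn : 1 ≤ n) (hp : 1 ≤ p) {M : ℤ} {ε : ℝ}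
    (hM : |D * Real.log p - M| ≤ ε) (hx : n ∉ Nr D 0 ε) :
    ((⌊D * Real.log ((p * n : ℕ) : ℝ)⌋₊ : ℕ) : ℤ) = (⌊D * Real.log n⌋₊ : ℕ) + M := by
  have hn0 : (0 : ℝ) < n := by exact_mod_cast hn
  have hp0 : (0 : ℝ) < p := by exact_mod_cast hp
  have hln : 0 ≤ Real.log n := Real.log_nonneg (by exact_mod_cast hn)
  have hlpn : 0 ≤ Real.log ((p * n : ℕ) : ℝ) :=
    Real.log_nonneg (by exact_mod_cast Nat.mul_pos hp hn)
  rw [Int.natCast_floor_eq_floor (mul_nonneg hD hlpn), Int.natCast_floor_eq_floor (mul_nonneg hD hln)]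
  apply floor_shift _ _ ε
  · intro k
    have := not_Nr hx k
    rwa [sub_zero] at this
  · have e : D * Real.log ((p * n : ℕ) : ℝ) - D * Real.log n - M = D * Real.log p - M := by
      push_cast
      rw [Real.log_mul hp0.ne' hn0.ne']
      ring
    rw [e]; exact hM

lemma level_of (σ : ℕ → ℝ) (hσ : ∀ p, σ p = 1 ∨ σ p = -1) (Q : Finset ℕ) (hQ : ∀ p ∈ Q, p.Prime)
    (E : ℕ) (hE : 1 ≤ E)
    (kg : ∀ (θ : ℕ → ℝ) (η : ℝ) (_ : 0 < η) (T0 : ℝ),
      ∃ τ : ℝ, T0 ≤ τ ∧ ∃ m : ℕ → ℤ, ∀ p ∈ Q, |τ * Real.log p - θ p - m p| ≤ η) :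
    ∃ D : ℕ → ℝ, ∃ B : ℝ, 0 < B ∧ (∀ p, 0 ≤ D p) ∧
      (∀ p ∈ Q, ∀ N : ℕ, 1 ≤ N →
        cnt {n | ¬ (am Q E D (p * n) * p = am Q E D n ∧ sg σ Q E D (p * n) = σ p * sg σ Q E D n)} N
          ≤ 100 / E * N + B * (Real.log N + 1)) ∧
      (∀ N : ℕ, 1 ≤ N →
        (((Ico 1 N).filter fun n => ¬ (am Q E D (n + 1) = am Q E D n ∧
          sg σ Q E D (n + 1) = sg σ Q E D n)).card : ℝ) ≤ B * (Real.log N + 1)) := by
  classical
  have hE0 : (0 : ℝ) < E := by exact_mod_cast hE
  have hE1 : (1 : ℝ) ≤ E := by exact_mod_cast hE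
  have hEn : E ≠ 0 := by omega
  set c : ℝ := (Q.card : ℝ) + 1 with hc
  have hc0 : 0 < c := by positivity
  have hc1 : 1 ≤ c := by rw [hc]; linarith [Nat.cast_nonneg (α := ℝ) Q.card]
  set η : ℝ := 1 / (63 * 2 * E ^ 2 * c) with hη
  have hη0 : 0 < η := by positivity
  choose δ hδ1 m hm using fun q : ℕ => kg (fun p => if p = q then 1 / (E : ℝ) else 0) η hη0 1
  have hEη : 63 * (E * η) * c ≤ 1 / E := by
    rw [hη]
    have : 63 * ((E : ℝ) * (1 / (63 * 2 * E ^ 2 * c))) * c = 1 / E / 2 := by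
      field_simp
    rw [this]
    have : 0 < 1 / (E : ℝ) := by positivity
    linarith
  have hEη0 : 0 < E * η := by positivity
  have hEη1 : E * η ≤ 1 / 2 := by
    have h1 : 1 / (E : ℝ) ≤ 1 := by
      rw [div_le_one hE0]; exact hE1
    nlinarith
  have hδ0 : ∀ q, 0 < δ q := fun q => by linarith [hδ1 q]
  obtain ⟨D, hD⟩ : ∃ D : ℕ → ℝ, ∀ q, D q = E * δ q := ⟨fun q => E * δ q, fun q => rfl⟩
  have hD1 : ∀ q, 1 ≤ D q := fun q => by
    rw [hD]; nlinarith [hδ1 q]
  have hD0 : ∀ q, 0 ≤ D q := fun q => by linarith [hD1 q]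
  -- the floors
  have hfl : ∀ p ∈ Q, ∀ q, ∀ n, 1 ≤ n → n ∉ Nr (D q) 0 (E * η) →
      ((⌊D q * Real.log ((p * n : ℕ) : ℝ)⌋₊ : ℕ) : ℤ)
        = (⌊D q * Real.log n⌋₊ : ℕ) + ((if p = q then 1 else 0) + E * m q p) := by
    intro p hp q n hn hx
    apply floor_nat_shift (hD0 q) hn (hQ p hp).one_le _ hx
    have h1 := hm q p hp
    have e : D q * Real.log p - ((if p = q then 1 else 0) + E * m q p : ℤ)
        = E * (δ q * Real.log p - (if p = q then 1 / (E : ℝ) else 0) - m q p) := by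
      rw [hD]
      split_ifs
      · push_cast; field_simp; ring
      · push_cast; ring
    rw [e, abs_mul, abs_of_pos hE0]
    exact mul_le_mul_of_nonneg_left h1 hE0.le
  -- levels
  have hlev : ∀ p ∈ Q, ∀ q, ∀ n, 1 ≤ n → n ∉ Nr (D q) 0 (E * η) →
      lev E D q (p * n) = (lev E D q n + if p = q then 1 else 0) % E := by
    intro p hp q n hn hx
    have h1 := hfl p hp q n hn hx
    have h2 : ((lev E D q (p * n) : ℕ) : ℤ) = (((lev E D q n + if p = q then 1 else 0) % E : ℕ) : ℤ) := by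
      unfold lev
      rw [Int.natCast_mod, h1]
      push_cast
      rw [← add_assoc, Int.add_mul_emod_self_left, Int.emod_add_emod]
    exact_mod_cast h2
  have hlevlt : ∀ q n, lev E D q n < E := fun q n => Nat.mod_lt _ (by omega)
  -- good `n`
  have hgood : ∀ p ∈ Q, ∀ n, 1 ≤ n → (∀ q ∈ Q, n ∉ Nr (D q) 0 (E * η)) → lev E D p n ≠ E - 1 →
      am Q E D (p * n) * p = am Q E D n ∧ sg σ Q E D (p * n) = σ p * sg σ Q E D n := by
    intro p hp n hn hx hp1
    have h1 : lev E D p (p * n) = lev E D p n + 1 := by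
      rw [hlev p hp p n hn (hx p hp), if_pos rfl, Nat.mod_eq_of_lt]
      have := hlevlt p n
      omega
    have h2 : ∀ q ∈ Q.erase p, lev E D q (p * n) = lev E D q n := by
      intro q hq
      rw [Finset.mem_erase] at hq
      rw [hlev p hp q n hn (hx q hq.2), if_neg (Ne.symm hq.1), add_zero, Nat.mod_eq_of_lt (hlevlt q n)]
    have h3 : E - 1 - lev E D p n = (E - 1 - (lev E D p n + 1)) + 1 := by
      have := hlevlt p n
      omega
    constructor
    · unfold am
      rw [← Finset.mul_prod_erase Q _ hp, ← Finset.mul_prod_erase Q _ hp, h1, h3,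
        Finset.prod_congr rfl (fun q hq => by rw [h2 q hq])]
      ring
    · unfold sg
      rw [← Finset.mul_prod_erase Q _ hp, ← Finset.mul_prod_erase Q _ hp, h1, h3,
        Finset.prod_congr rfl (fun q hq => by rw [h2 q hq])]
      have h4 : σ p * σ p = 1 := by
        rcases hσ p with h | h <;> rw [h] <;> norm_num
      rw [pow_succ]
      calc _ = (σ p ^ (E - 1 - (lev E D p n + 1)) * ∏ x ∈ Q.erase p, σ x ^ (E - 1 - lev E D x n)) * 1 := by
            ring
        _ = (σ p ^ (E - 1 - (lev E D p n + 1)) * ∏ x ∈ Q.erase p, σ x ^ (E - 1 - lev E D x n))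
              * (σ p * σ p) := by rw [h4]
        _ = _ := by ring
  -- top level
  have htop : ∀ p, ∀ n, 1 ≤ n → lev E D p n = E - 1 → n ∈ Nr (δ p) (1 - 1 / (2 * E)) (1 / (2 * E)) := by
    intro p n hn h
    have hln : 0 ≤ Real.log n := Real.log_nonneg (by exact_mod_cast hn)
    have hx0 : 0 ≤ D p * Real.log n := mul_nonneg (hD0 p) hln
    have h1 := Nat.floor_le hx0
    have h2 := Nat.lt_floor_add_one (D p * Real.log n)
    have h3 := Nat.div_add_mod ⌊D p * Real.log n⌋₊ E
    unfold lev at h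
    rw [h] at h3
    set k := ⌊D p * Real.log n⌋₊ / E
    have h4 : ((⌊D p * Real.log n⌋₊ : ℕ) : ℝ) = E * k + (E - 1) := by
      rw [← h3]
      push_cast [Nat.cast_sub hE]
      ring
    rw [h4] at h1 h2
    refine ⟨(k : ℤ), ?_⟩
    rw [hD] at h1 h2
    have e : δ p * Real.log n - (1 - 1 / (2 * E)) - ((k : ℤ) : ℝ)
        = (E * δ p * Real.log n - (E * k + (E - 1)) - 1 / 2) / E := by
      push_cast
      field_simp
      ring
    rw [e, abs_div, abs_of_pos hE0]
    have h5 : |E * δ p * Real.log n - (E * k + (E - 1)) - 1 / 2| ≤ 1 / 2 :=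
      abs_le.mpr ⟨by linarith, by linarith⟩
    refine (div_le_div_of_nonneg_right h5 hE0.le).trans (le_of_eq ?_)
    field_simp
  set B : ℝ := ∑ q ∈ Q, (D q + 3) + ∑ q ∈ Q, (δ q + 3) + 1 with hB
  have hBD : 0 ≤ ∑ q ∈ Q, (D q + 3) := Finset.sum_nonneg fun q _ => by linarith [hD0 q]
  have hBδ : 0 ≤ ∑ q ∈ Q, (δ q + 3) := Finset.sum_nonneg fun q _ => by linarith [hδ0 q]
  have hB0 : 0 < B := by rw [hB]; linarith
  refine ⟨D, B, hB0, hD0, ?_, ?_⟩
  · intro p hp N hN
    have hlogN : 0 ≤ Real.log N := Real.log_nonneg (by exact_mod_cast hN)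
    -- the exceptional set
    have hsub : cnt {n | ¬ (am Q E D (p * n) * p = am Q E D n ∧
        sg σ Q E D (p * n) = σ p * sg σ Q E D n)} N
        ≤ cnt ({n | ∃ q ∈ Q, n ∈ Nr (D q) 0 (E * η)} ∪ Nr (δ p) (1 - 1 / (2 * E)) (1 / (2 * E))) N := by
      apply cnt_mono'
      intro n hn0 _ hn
      by_contra hcon
      rw [Set.mem_union, not_or] at hcon
      obtain ⟨hc1, hc2⟩ := hcon
      apply hn
      apply hgood p hp n hn0
      · intro q hq hq2
        exact hc1 ⟨q, hq, hq2⟩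
      · intro h
        exact hc2 (htop p n hn0 h)
    have h1 : cnt {n | ∃ q ∈ Q, n ∈ Nr (D q) 0 (E * η)} N ≤ ∑ q ∈ Q, cnt (Nr (D q) 0 (E * η)) N := by
      clear hsub hgood hlev hfl
      have : ∀ S : Finset ℕ, cnt {n | ∃ q ∈ S, n ∈ Nr (D q) 0 (E * η)} N
          ≤ ∑ q ∈ S, cnt (Nr (D q) 0 (E * η)) N := by
        intro S
        induction S using Finset.induction_on with
        | empty => simp [cnt]
        | insert a s ha ih =>
          rw [Finset.sum_insert ha]
          refine le_trans ?_ (add_le_add le_rfl ih)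
          refine le_trans ?_ (cnt_union _ _ _)
          apply cnt_mono
          rintro n ⟨q, hq, hn⟩
          rcases Finset.mem_insert.mp hq with rfl | hq
          · exact Or.inl hn
          · exact Or.inr ⟨q, hq, hn⟩
      exact this Q
    have h2 : ∑ q ∈ Q, cnt (Nr (D q) 0 (E * η)) N
        ≤ ∑ q ∈ Q, (63 * (E * η) * N + (D q * Real.log N + 3)) :=
      Finset.sum_le_sum fun q _ => cnt_Nr (D q) 0 (E * η) (hD1 q) hEη0 hEη1 N hN
    have h3 : cnt (Nr (δ p) (1 - 1 / (2 * E)) (1 / (2 * E))) N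
        ≤ 63 * (1 / (2 * E)) * N + (δ p * Real.log N + 3) := by
      apply cnt_Nr _ _ _ (hδ1 p) (by positivity) _ N hN
      rw [div_le_div_iff₀ (by positivity) (by norm_num)]
      linarith
    have h4 : ∑ q ∈ Q, (63 * (E * η) * N + (D q * Real.log N + 3))
        ≤ 1 / E * N + (∑ q ∈ Q, (D q + 3)) * (Real.log N + 1) := by
      rw [Finset.sum_add_distrib, Finset.sum_const, nsmul_eq_mul, Finset.sum_mul]
      apply add_le_add
      · have : (Q.card : ℝ) * (63 * (E * η) * N) = 63 * (E * η) * Q.card * N := by ring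
        rw [this]
        apply mul_le_mul_of_nonneg_right _ (Nat.cast_nonneg _)
        refine le_trans ?_ hEη
        rw [hc]
        nlinarith
      · apply Finset.sum_le_sum
        intro q _
        nlinarith [hD0 q]
    have h5 : δ p * Real.log N + 3 ≤ (∑ q ∈ Q, (δ q + 3)) * (Real.log N + 1) := by
      have : δ p + 3 ≤ ∑ q ∈ Q, (δ q + 3) :=
        Finset.single_le_sum (f := fun q => δ q + 3) (fun q _ => by linarith [hδ0 q]) hp
      have h6 : (δ p + 3) * (Real.log N + 1) ≤ (∑ q ∈ Q, (δ q + 3)) * (Real.log N + 1) :=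
        mul_le_mul_of_nonneg_right this (by linarith)
      nlinarith [hδ0 p]
    have h7 := cnt_union {n | ∃ q ∈ Q, n ∈ Nr (D q) 0 (E * η)}
      (Nr (δ p) (1 - 1 / (2 * E)) (1 / (2 * E))) N
    have h8 : 63 * (1 / (2 * (E : ℝ))) * N + 1 / E * N ≤ 100 / E * N := by
      rw [← add_mul]
      apply mul_le_mul_of_nonneg_right _ (Nat.cast_nonneg _)
      have : 63 * (1 / (2 * (E : ℝ))) + 1 / E = 65 / 2 * (1 / E) := by field_simp; ring
      rw [this]
      have h9 : 0 < 1 / (E : ℝ) := by positivity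
      have : 100 / (E : ℝ) = 100 * (1 / E) := by ring
      rw [this]
      linarith
    have h10 : B * (Real.log N + 1) = (∑ q ∈ Q, (D q + 3)) * (Real.log N + 1)
        + (∑ q ∈ Q, (δ q + 3)) * (Real.log N + 1) + (Real.log N + 1) := by rw [hB]; ring
    linarith
  · intro N hN
    have hlogN : 0 ≤ Real.log N := Real.log_nonneg (by exact_mod_cast hN)
    have hsub : (Ico 1 N).filter (fun n => ¬ (am Q E D (n + 1) = am Q E D n ∧
          sg σ Q E D (n + 1) = sg σ Q E D n))
        ⊆ Q.biUnion fun q => (Ico 1 N).filter fun n =>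
          ⌊D q * Real.log ((n + 1 : ℕ) : ℝ)⌋₊ ≠ ⌊D q * Real.log n⌋₊ := by
      intro n hn
      rw [Finset.mem_filter] at hn
      rw [Finset.mem_biUnion]
      by_contra hcon
      push Not at hcon
      apply hn.2
      have h1 : ∀ q ∈ Q, lev E D q (n + 1) = lev E D q n := by
        intro q hq
        have := hcon q hq
        rw [Finset.mem_filter, not_and, not_not] at this
        unfold lev
        rw [this hn.1]
      constructor
      · unfold am
        exact Finset.prod_congr rfl fun q hq => by rw [h1 q hq]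
      · unfold sg
        exact Finset.prod_congr rfl fun q hq => by rw [h1 q hq]
    have h1 := (Finset.card_le_card hsub).trans Finset.card_biUnion_le
    have h2 : ∀ q ∈ Q, ((Ico 1 N).filter fun n =>
          ⌊D q * Real.log ((n + 1 : ℕ) : ℝ)⌋₊ ≠ ⌊D q * Real.log n⌋₊).card ≤ ⌊D q * Real.log N⌋₊ := by
      intro q _
      apply card_steps (fun n => ⌊D q * Real.log n⌋₊) _ N hN
      intro n hn
      apply Nat.floor_le_floor
      apply mul_le_mul_of_nonneg_left _ (hD0 q)
      apply Real.log_le_log (by exact_mod_cast hn)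
      push_cast
      linarith
    have h3 : ((∑ q ∈ Q, ⌊D q * Real.log N⌋₊ : ℕ) : ℝ) ≤ ∑ q ∈ Q, D q * Real.log N := by
      push_cast
      exact Finset.sum_le_sum fun q _ => Nat.floor_le (mul_nonneg (hD0 q) hlogN)
    have h4 : ∑ q ∈ Q, D q * Real.log N ≤ (∑ q ∈ Q, (D q + 3)) * (Real.log N + 1) := by
      rw [Finset.sum_mul]
      apply Finset.sum_le_sum
      intro q _
      nlinarith [hD0 q]
    have h5 : (((Ico 1 N).filter fun n => ¬ (am Q E D (n + 1) = am Q E D n ∧
          sg σ Q E D (n + 1) = sg σ Q E D n)).card : ℝ) ≤ ((∑ q ∈ Q, ⌊D q * Real.log N⌋₊ : ℕ) : ℝ) := by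
      exact_mod_cast h1.trans (Finset.sum_le_sum h2)
    have h10 : B * (Real.log N + 1) = (∑ q ∈ Q, (D q + 3)) * (Real.log N + 1)
        + (∑ q ∈ Q, (δ q + 3)) * (Real.log N + 1) + (Real.log N + 1) := by rw [hB]; ring
    have h11 : 0 ≤ (∑ q ∈ Q, (δ q + 3)) * (Real.log N + 1) := mul_nonneg hBδ (by linarith)
    linarith

end Pool.Agent.Helper8.Classify
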